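import Pool.Agent.H152R3.KD.Stmts

set_option autoImplicit false

open MeasureTheory Filter Topology Set
open scoped FourierTransform ContDiff

namespace Pool.Agent.H87R3.KD

open Pool.Agent.H152R3.KD

theorem small_ball (μ : Measure ℝ) [IsLocallyFiniteMeasure μ] (s : ℝ) (h : μ {s} = 0)
    {ε : ENNReal} (hε : 0 < ε) : ∃ d : ℝ, 0 < d ∧ μ (Metric.closedBall s d) < ε := by
  have hI : (⋂ n : ℕ, Metric.closedBall s (1 / ((n : ℝ) + 1))) = {s} := by
    ext x
    simp only [mem_iInter, Metric.mem_closedBall, mem_singleton_iff]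
    constructor
    · intro hx
      have h0 : dist x s ≤ 0 := by
        refine ge_of_tendsto' tendsto_one_div_add_atTop_nhds_zero_nat hx
      exact dist_le_zero.1 h0
    · rintro rfl n
      rw [dist_self]
      positivity
  have ht := tendsto_measure_iInter_atTop (μ := μ)
    (s := fun n : ℕ => Metric.closedBall s (1 / ((n : ℝ) + 1)))
    (fun n => Metric.isClosed_closedBall.measurableSet.nullMeasurableSet)
    (fun m n hmn => Metric.closedBall_subset_closedBall (by
      apply one_div_le_one_div_of_le (by positivity)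
      have : (m : ℝ) ≤ n := by exact_mod_cast hmn
      linarith))
    ⟨0, (isCompact_closedBall s _).measure_lt_top.ne⟩
  rw [hI, h] at ht
  obtain ⟨n, hn⟩ := ((tendsto_order.1 ht).2 ε hε).exists
  exact ⟨1 / ((n : ℝ) + 1), by positivity, hn⟩

/-- the exponential sum -/
noncomputable def SF (F : Finset ℝ) (u : ℝ) : ℂ :=
  ∑ x ∈ F, Complex.exp (-(2 * Real.pi * u * x : ℝ) * Complex.I)

theorem SF_cont (F : Finset ℝ) : Continuous (SF F) := by
  unfold SF
  fun_prop

theorem exp_lip (a b : ℝ) : ‖Complex.exp (-(a : ℝ) * Complex.I) -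
    Complex.exp (-(b : ℝ) * Complex.I)‖ ≤ |a - b| := by
  have e : Complex.exp (-(a : ℝ) * Complex.I) - Complex.exp (-(b : ℝ) * Complex.I) =
      Complex.exp (((-b : ℝ) : ℂ) * Complex.I) *
        (Complex.exp (Complex.I * ((b - a : ℝ) : ℂ)) - 1) := by
    rw [mul_sub, ← Complex.exp_add, mul_one]
    push_cast
    congr 2
    ring
  rw [e, norm_mul, Complex.norm_exp_ofReal_mul_I, one_mul]
  refine (Real.norm_exp_I_mul_ofReal_sub_one_le).trans (le_of_eq ?_)
  rw [Real.norm_eq_abs, abs_sub_comm]

theorem SF_lip (F : Finset ℝ) (T : ℝ) (hF : ∀ x ∈ F, |x| ≤ T) (u s : ℝ) :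
    ‖SF F u - SF F s‖ ≤ F.card * (2 * Real.pi * |u - s| * T) := by
  unfold SF
  rw [← Finset.sum_sub_distrib]
  refine (norm_sum_le _ _).trans ?_
  rw [← nsmul_eq_mul]
  apply Finset.sum_le_card_nsmul
  intro x hx
  refine (exp_lip _ _).trans ?_
  have e : 2 * Real.pi * u * x - 2 * Real.pi * s * x = (2 * Real.pi) * (u - s) * x := by ring
  rw [e, abs_mul, abs_mul, abs_of_pos Real.two_pi_pos]
  exact mul_le_mul_of_nonneg_left (hF x hx) (by positivity)

theorem taskATOM : TaskATOM := by
  intro hPER _ Λ μ s C c hμ hC hc h1 h2 h3 hs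
  set r : ℝ := c / (4 * Real.pi * C) with hr
  have hpi := Real.pi_pos
  have hr0 : 0 < r := by positivity
  set c2 : ℝ := c ^ 2 * r / 4 with hc2
  have hc20 : 0 < c2 := by positivity
  obtain ⟨d, hd0, hd⟩ := small_ball μ s hs (ε := ENNReal.ofReal (c2 / 2)) (by
    rw [ENNReal.ofReal_pos]
    positivity)
  let f : ContDiffBump s := ⟨d / 2, d, by positivity, by linarith⟩
  set φ : ℝ → ℂ := fun x => ((f x : ℝ) : ℂ) with hφ
  have φs : ContDiff ℝ ∞ φ := Complex.ofRealCLM.contDiff.comp f.contDiff
  have φc : HasCompactSupport φ := f.hasCompactSupport.comp_left Complex.ofReal_zero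
  have hlim := (h2 φ φs φc).norm
  -- the limit is small
  have hsmall : ‖∫ u, φ u ∂μ‖ < c2 := by
    have e : ∫ u in Metric.closedBall s d, φ u ∂μ = ∫ u, φ u ∂μ := by
      apply setIntegral_eq_integral_of_forall_compl_eq_zero
      intro x hx
      rw [Metric.mem_closedBall, not_le] at hx
      simp only [hφ]
      rw [f.zero_of_le_dist hx.le, Complex.ofReal_zero]
    rw [← e]
    have h4 := norm_setIntegral_le_of_norm_le_const (μ := μ) (s := Metric.closedBall s d)
      (f := φ) (C := 1) (isCompact_closedBall s d).measure_lt_top (fun x _ => by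
        simp only [hφ]
        rw [Complex.norm_real, Real.norm_eq_abs, abs_of_nonneg f.nonneg]
        exact f.le_one)
    have h5 : μ.real (Metric.closedBall s d) < c2 / 2 := by
      rw [Measure.real]
      have := (ENNReal.toReal_lt_toReal (isCompact_closedBall s d).measure_lt_top.ne
        ENNReal.ofReal_ne_top).2 hd
      rwa [ENNReal.toReal_ofReal (by positivity)] at this
    linarith
  have hev : ∀ᶠ T : ℝ in atTop, ‖corr Λ (𝓕 φ) T‖ < c2 := (tendsto_order.1 hlim).2 c2 hsmall
  have hev2 : ∀ᶠ T : ℝ in atTop, 1 ≤ T ∧ 2 * r / d ≤ T :=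
    (eventually_ge_atTop 1).and (eventually_ge_atTop _)
  obtain ⟨T, hT3, hT4, hT1, hT2⟩ := (h3.and_eventually (hev.and hev2)).exists
  have hT0 : 0 < T := by linarith
  obtain ⟨hfin, hcard⟩ := h1 T hT1
  set F : Finset ℝ := hfin.toFinset with hF
  have hsum : ∀ u : ℝ, ∑ᶠ x ∈ Λ ∩ Icc (-T) T,
      Complex.exp (-(2 * Real.pi * u * x : ℝ) * Complex.I) = SF F u := by
    intro u
    unfold SF
    rw [finsum_mem_eq_finite_toFinset_sum _ hfin]
  have hFc : (F.card : ℝ) ≤ C * T := by
    rw [hF, ← Set.ncard_eq_toFinset_card _ hfin]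
    exact hcard
  have hFT : ∀ x ∈ F, |x| ≤ T := by
    intro x hx
    rw [hF, Set.Finite.mem_toFinset] at hx
    exact abs_le.2 ⟨hx.2.1, hx.2.2⟩
  rw [hsum] at hT3
  have hper := hPER Λ T hT0 hfin φ φs φc
  simp only [hsum] at hper
  -- lower bound near `s`
  have hlow : ∀ u ∈ Metric.closedBall s (r / T), c ^ 2 * T / 8 ≤
      f u * (1 / (2 * T) * ‖SF F u‖ ^ 2) := by
    intro u hu
    have hu' : |u - s| ≤ r / T := by
      rw [Metric.mem_closedBall, Real.dist_eq] at hu
      exact hu
    have hrT : r / T ≤ d / 2 := by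
      rw [div_le_iff₀ hT0]
      rw [div_le_iff₀ hd0] at hT2
      nlinarith
    have hf1 : f u = 1 := by
      apply f.one_of_mem_closedBall
      rw [Metric.mem_closedBall, Real.dist_eq]
      exact hu'.trans hrT
    have h6 := SF_lip F T hFT u s
    have h7 : (F.card : ℝ) * (2 * Real.pi * |u - s| * T) ≤ (C * T) * (2 * Real.pi * (r / T) * T) := by
      apply mul_le_mul hFc _ (by positivity) (by positivity)
      apply mul_le_mul_of_nonneg_right _ hT0.le
      apply mul_le_mul_of_nonneg_left hu' (by positivity)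
    have h8 : (C * T) * (2 * Real.pi * (r / T) * T) = c * T / 2 := by
      rw [hr]
      field_simp
      ring
    have h9 : c * T / 2 ≤ ‖SF F u‖ := by
      have := norm_sub_norm_le (SF F s) (SF F u)
      rw [norm_sub_rev] at this
      linarith
    rw [hf1, one_mul]
    have h10 : (c * T / 2) ^ 2 ≤ ‖SF F u‖ ^ 2 := pow_le_pow_left₀ (by positivity) h9 2
    calc c ^ 2 * T / 8 = 1 / (2 * T) * (c * T / 2) ^ 2 := by
          field_simp
          ring
      _ ≤ _ := mul_le_mul_of_nonneg_left h10 (by positivity)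
  have hcont : Continuous (fun u => f u * (1 / (2 * T) * ‖SF F u‖ ^ 2)) := by
    have h11 := SF_cont F
    have h12 : Continuous f := f.continuous
    fun_prop
  have hcomp : HasCompactSupport (fun u => f u * (1 / (2 * T) * ‖SF F u‖ ^ 2)) :=
    f.hasCompactSupport.mul_right
  have hint : Integrable (fun u => f u * (1 / (2 * T) * ‖SF F u‖ ^ 2)) :=
    hcont.integrable_of_hasCompactSupport hcomp
  have h13 : c2 ≤ ∫ u, f u * (1 / (2 * T) * ‖SF F u‖ ^ 2) := by
    have h14 : ∫ u in Metric.closedBall s (r / T), f u * (1 / (2 * T) * ‖SF F u‖ ^ 2) ≤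
        ∫ u, f u * (1 / (2 * T) * ‖SF F u‖ ^ 2) := by
      apply setIntegral_le_integral hint
      exact Eventually.of_forall fun u => mul_nonneg f.nonneg (by positivity)
    have h15 := setIntegral_ge_of_const_le_real (μ := volume)
      (Metric.isClosed_closedBall.measurableSet (s := Metric.closedBall s (r / T)))
      (isCompact_closedBall s (r / T)).measure_lt_top.ne hlow hint.integrableOn
    have h16 : volume.real (Metric.closedBall s (r / T)) = 2 * (r / T) := by
      rw [Measure.real, Real.volume_closedBall, ENNReal.toReal_ofReal (by positivity)]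
    rw [h16] at h15
    have h17 : c ^ 2 * T / 8 * (2 * (r / T)) = c2 := by
      rw [hc2]
      field_simp
      ring
    linarith
  have h18 : corr Λ (𝓕 φ) T = ((∫ u, f u * (1 / (2 * T) * ‖SF F u‖ ^ 2) : ℝ) : ℂ) := by
    rw [hper, ← integral_complex_ofReal]
    congr 1
    funext u
    simp only [hφ]
    push_cast
    ring
  rw [h18, Complex.norm_real, Real.norm_eq_abs] at hT4
  have := le_abs_self (∫ u, f u * (1 / (2 * T) * ‖SF F u‖ ^ 2))
  linarith

end Pool.Agent.H87R3.KD
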